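import Mathlib
import Pool.Agent.E8helper9.RM.Exist

set_option autoImplicit false

/-!
# Subgroups of finite rank of a torus which are not Lehmer groups

The notions of the problem are defined, for the torus `G` of dimension `n` over the algebraic
numbers, in `Pool/Agent/E8helper9/RM/Defs.lean`: points `Pt n`, height `hG`, subvarieties
`IsSubvariety`, degree `degree`, obstruction index `obstruction`, essential minimum `essMin`,
the field `coordField K Γ`, torsion subvarieties `IsTorsionVariety`, transversality `IsTransverse`,
and Lehmer groups `IsLehmerGroup`. Moreover `coordGroup Γ` is the group generated by the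
coordinates of the points of `Γ`, and `power H` is the group of the points with all coordinates
in `H`.
-/

namespace Pool.Agent.Results.MP_187c26_nt.NotEveryGroupLehmerH9

open Pool.Agent.E8helper9.RM

/-- **Not every subgroup of finite rank is a Lehmer group.** Let `n ≥ 2`. There is a saturated
subgroup of rank one of the torus of dimension `n` which is not a Lehmer group over any field `K` of
algebraic numbers. More precisely, let `Γ` be a saturated subgroup of finite rank, `Γ₀` the group
generated by the coordinates of its points and `K` any field of algebraic numbers. If the rank of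
`Γ` is positive and less than `n`, then `Γ` is not a Lehmer group over `K`. In all cases, `Γ` is a
Lehmer group over `K` if and only if every nontrivial character of the torus maps `Γ` onto `Γ₀` and
the power `Γ₀ ^ n` is a Lehmer group over `K`. -/
theorem result (n : ℕ) (hn : 2 ≤ n) :
    (∃ Γ : Subgroup (Pt n), IsSaturated Γ ∧ rk (Additive Γ) = 1 ∧
      ∀ K : IntermediateField ℚ Qb, ¬ IsLehmerGroup K Γ) ∧
    ∀ Γ : Subgroup (Pt n), IsSaturated Γ → FinRk (Additive Γ) →
      ∀ K : IntermediateField ℚ Qb,
        (0 < rk (Additive Γ) → rk (Additive Γ) < n → ¬ IsLehmerGroup K Γ) ∧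
        (IsLehmerGroup K Γ ↔
          (∀ v : Fin n → ℤ, v ≠ 0 → ∀ y ∈ coordGroup Γ, ∃ x ∈ Γ, ∏ i, x i ^ v i = y) ∧
            IsLehmerGroup K (power (coordGroup Γ) : Subgroup (Pt n))) := by
  have hn1 : 1 ≤ n := by omega
  have hrank : ∀ Γ : Subgroup (Pt n), IsSaturated Γ → FinRk (Additive Γ) →
      ∀ K : IntermediateField ℚ Qb, 0 < rk (Additive Γ) → rk (Additive Γ) < n →
        ¬ IsLehmerGroup K Γ := by
    intro Γ hΓ hfin K h0 hlt
    obtain ⟨v, hv, hne⟩ := exists_chi_of_rank hfin h0 hlt
    exact not_lehmer_of_chi hn1 (sat_eq hΓ) hfin v hv hne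
  refine ⟨?_, fun Γ hΓ hfin K => ⟨hrank Γ hΓ hfin K, ?_⟩⟩
  · obtain ⟨Γ, hΓ, h1⟩ := exists_rank_one hn1
    have hfin : FinRk (Additive Γ) :=
      FiniteDimensional.of_finrank_pos (lt_of_lt_of_eq one_pos h1.symm)
    exact ⟨Γ, hΓ, h1, fun K => hrank Γ hΓ hfin K (by omega) (by omega)⟩
  · rw [lehmer_iff hn1 K (sat_eq hΓ) hfin]
    refine and_congr_left fun _ => forall₂_congr fun v _ => ⟨fun h y hy => ?_, fun h => ?_⟩
    · rw [← h] at hy
      exact hy
    · exact le_antisymm (map_chi_le Γ v) fun y hy => h y hy

end Pool.Agent.Results.MP_187c26_nt.NotEveryGroupLehmerH9
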